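import Pool.Agent.W792.WA.Stm6

namespace Pool.Agent.W332.WA.WB

open MeasureTheory Filter Pool.Agent.W792.WA
open scoped Topology

noncomputable section

lemma fourier_add_arg (n : ℤ) (x y : UnitAddCircle) :
    fourier n (x + y) = fourier n x * fourier n y := by
  simp only [fourier_apply, smul_add, AddCircle.toCircle_add, Circle.coe_mul]

lemma coeff_diff (f : C(UnitAddCircle, ℂ)) (τ : UnitAddCircle) (h : ℤ) :
    fourierCoeff (fun t : UnitAddCircle => f (t + τ) - f t) h =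
      (fourier h τ - 1) * fourierCoeff (fun t : UnitAddCircle => f t) h := by
  have hc1 : Continuous (fun t : UnitAddCircle => fourier (-h) t • f (t + τ)) :=
    (fourier (-h)).continuous.smul (f.continuous.comp (continuous_id.add continuous_const))
  have hc2 : Continuous (fun t : UnitAddCircle => fourier (-h) t • f t) :=
    (fourier (-h)).continuous.smul f.continuous
  have hi1 : Integrable (fun t : UnitAddCircle => fourier (-h) t • f (t + τ))
      AddCircle.haarAddCircle := hc1.integrable_of_hasCompactSupport (HasCompactSupport.of_compactSpace _)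
  have hi2 : Integrable (fun t : UnitAddCircle => fourier (-h) t • f t)
      AddCircle.haarAddCircle := hc2.integrable_of_hasCompactSupport (HasCompactSupport.of_compactSpace _)
  have h1 : fourierCoeff (fun t : UnitAddCircle => f (t + τ) - f t) h =
      (∫ t : UnitAddCircle, fourier (-h) t • f (t + τ) ∂AddCircle.haarAddCircle) -
        ∫ t : UnitAddCircle, fourier (-h) t • f t ∂AddCircle.haarAddCircle := by
    unfold fourierCoeff
    rw [← integral_sub hi1 hi2]
    congr 1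
    ext t
    rw [smul_sub]
  have h2 : (∫ t : UnitAddCircle, fourier (-h) t • f (t + τ) ∂AddCircle.haarAddCircle) =
      fourier h τ * ∫ t : UnitAddCircle, fourier (-h) t • f t ∂AddCircle.haarAddCircle := by
    have h3 := integral_add_right_eq_self (μ := (AddCircle.haarAddCircle : Measure UnitAddCircle))
      (fun t : UnitAddCircle => fourier (-h) (t - τ) • f t) τ
    have h4 : ∀ t : UnitAddCircle, fourier (-h) (t - τ) • f t = fourier h τ * (fourier (-h) t • f t) := by
      intro t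
      have h5 : fourier (-h) (t - τ) = fourier (-h) t * fourier h τ := by
        rw [sub_eq_add_neg, fourier_add_arg]
        congr 1
        simp [fourier_apply]
      rw [h5, smul_eq_mul, smul_eq_mul]
      ring
    rw [← integral_const_mul, ← integral_congr_ae (Filter.Eventually.of_forall h4), ← h3]
    congr 1
    ext t
    rw [add_sub_cancel_right]
  rw [h1, h2]
  unfold fourierCoeff
  ring

lemma parseval_le (g : C(UnitAddCircle, ℂ)) (K : ℝ) (hK : ∀ t, ‖g t‖ ≤ K) (s : Finset ℤ) :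
    ∑ h ∈ s, ‖fourierCoeff (fun t : UnitAddCircle => g t) h‖ ^ 2 ≤ K ^ 2 := by
  have hK0 : 0 ≤ K := (norm_nonneg _).trans (hK 0)
  set G := ContinuousMap.toLp (E := ℂ) 2 (AddCircle.haarAddCircle (T := (1 : ℝ))) ℂ g with hG
  have h1 := hasSum_sq_fourierCoeff (T := (1 : ℝ)) G
  have h2 : ∀ n : ℤ, fourierCoeff G n = fourierCoeff (fun t : UnitAddCircle => g t) n := by
    intro n
    rw [hG]
    exact fourierCoeff_toLp g n
  simp only [h2] at h1
  refine (sum_le_hasSum s (fun i _ => by positivity) h1).trans ?_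
  have h3 : ∫ t : UnitAddCircle, ‖G t‖ ^ 2 ∂AddCircle.haarAddCircle =
      ∫ t : UnitAddCircle, ‖g t‖ ^ 2 ∂AddCircle.haarAddCircle := by
    apply integral_congr_ae
    filter_upwards [ContinuousMap.coeFn_toLp (E := ℂ) (p := 2)
      (AddCircle.haarAddCircle (T := (1 : ℝ))) (𝕜 := ℂ) g] with t ht
    rw [hG, ht]
  rw [h3]
  calc ∫ t : UnitAddCircle, ‖g t‖ ^ 2 ∂AddCircle.haarAddCircle
      ≤ ∫ t : UnitAddCircle, K ^ 2 ∂AddCircle.haarAddCircle := by
        apply integral_mono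
        · have hc : Continuous (fun t : UnitAddCircle => ‖g t‖ ^ 2) := by fun_prop
          exact hc.integrable_of_hasCompactSupport (HasCompactSupport.of_compactSpace _)
        · exact integrable_const _
        · intro t
          exact pow_le_pow_left₀ (norm_nonneg _) (hK t) 2
    _ = K ^ 2 := by simp

lemma fourier_far (m : ℕ) (h : ℤ) (h1 : 2 ^ m ≤ h.natAbs) (h2 : h.natAbs < 2 ^ (m + 1)) :
    2 ≤ ‖(fourier h (((1 / 2 : ℝ) ^ (m + 2) : ℝ) : UnitAddCircle) : ℂ) - 1‖ ^ 2 := by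
  set φ : ℝ := 2 * Real.pi * h * (1 / 2 : ℝ) ^ (m + 2) with hφ
  have e1 : (fourier h (((1 / 2 : ℝ) ^ (m + 2) : ℝ) : UnitAddCircle) : ℂ) = Complex.exp (φ * Complex.I) := by
    rw [fourier_coe_apply]
    congr 1
    rw [hφ]
    push_cast
    ring
  have e2 : ‖Complex.exp (φ * Complex.I) - 1‖ ^ 2 = 2 - 2 * Real.cos φ := by
    rw [← Complex.normSq_eq_norm_sq, Complex.exp_mul_I, Complex.normSq_apply]
    have r1 : (Complex.cos φ + Complex.sin φ * Complex.I - 1).re = Real.cos φ - 1 := by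
      simp [Complex.cos_ofReal_re]
    have r2 : (Complex.cos φ + Complex.sin φ * Complex.I - 1).im = Real.sin φ := by
      simp [Complex.sin_ofReal_re]
    rw [r1, r2]
    nlinarith [Real.sin_sq_add_cos_sq φ]
  rw [e1, e2]
  have hcos : Real.cos φ ≤ 0 := by
    rw [← Real.cos_abs]
    have habs : |φ| = 2 * Real.pi * (h.natAbs : ℝ) * (1 / 2 : ℝ) ^ (m + 2) := by
      rw [hφ, abs_mul, abs_mul, abs_of_nonneg (by positivity : (0 : ℝ) ≤ 2 * Real.pi),
        abs_of_nonneg (by positivity : (0 : ℝ) ≤ (1 / 2 : ℝ) ^ (m + 2))]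
      congr 2
      rw [← Int.cast_abs, Int.abs_eq_natAbs]
      simp
    have hp : (2 : ℝ) ^ m * (1 / 2 : ℝ) ^ (m + 2) = 1 / 4 := by
      rw [pow_add, ← mul_assoc, ← mul_pow]
      norm_num
    have hn1 : (2 : ℝ) ^ m ≤ (h.natAbs : ℝ) := by exact_mod_cast h1
    have hn2 : (h.natAbs : ℝ) ≤ 2 * (2 : ℝ) ^ m := by
      have : (h.natAbs : ℝ) < (2 : ℝ) ^ (m + 1) := by exact_mod_cast h2
      rw [pow_succ] at this
      linarith
    have hq : (0 : ℝ) < (1 / 2 : ℝ) ^ (m + 2) := by positivity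
    have g1 : 1 / 4 ≤ (h.natAbs : ℝ) * (1 / 2 : ℝ) ^ (m + 2) := by
      rw [← hp]; exact mul_le_mul_of_nonneg_right hn1 hq.le
    have g2 : (h.natAbs : ℝ) * (1 / 2 : ℝ) ^ (m + 2) ≤ 1 / 2 := by
      calc (h.natAbs : ℝ) * (1 / 2 : ℝ) ^ (m + 2) ≤ (2 * (2 : ℝ) ^ m) * (1 / 2 : ℝ) ^ (m + 2) :=
            mul_le_mul_of_nonneg_right hn2 hq.le
        _ = 2 * ((2 : ℝ) ^ m * (1 / 2 : ℝ) ^ (m + 2)) := by ring
        _ = 1 / 2 := by rw [hp]; norm_num
    have hpi := Real.pi_pos
    have habs2 : |φ| = 2 * Real.pi * ((h.natAbs : ℝ) * (1 / 2 : ℝ) ^ (m + 2)) := by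
      rw [habs]; ring
    apply Real.cos_nonpos_of_pi_div_two_le_of_le
    · rw [habs2]; nlinarith
    · rw [habs2]; nlinarith
  linarith

/-- the dyadic block -/
def B (m : ℕ) : Finset ℤ :=
  (Finset.Icc (-((2 : ℤ) ^ (m + 1))) ((2 : ℤ) ^ (m + 1))).filter
    (fun h => 2 ^ m ≤ h.natAbs ∧ h.natAbs < 2 ^ (m + 1))

lemma B_card (m : ℕ) : ((B m).card : ℝ) ≤ 5 * 2 ^ m := by
  have h1 : (B m).card ≤ 5 * 2 ^ m := by
    refine (Finset.card_filter_le _ _).trans ?_
    rw [Int.card_Icc]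
    have h2 : ((2 : ℤ) ^ (m + 1)) = ((2 ^ (m + 1) : ℕ) : ℤ) := by push_cast; rfl
    rw [h2]
    have h3 : 2 ^ (m + 1) = 2 * 2 ^ m := by rw [pow_succ]; ring
    have h4 : 1 ≤ 2 ^ m := Nat.one_le_two_pow
    omega
  exact_mod_cast h1

theorem main : S_WB := by
  intro ψ ⟨C, hC⟩
  have hC0 : 0 ≤ C := by
    have h := hC 0 1
    have h' : (|(0 : ℝ) - 1| : ℝ) ^ (2 / 3 : ℝ) = 1 := by norm_num
    rw [h', mul_one] at h
    exact (abs_nonneg _).trans h
  set f : C(UnitAddCircle, ℂ) := ⟨fun t => ((ψ t : ℝ) : ℂ), Complex.continuous_ofReal.comp ψ.continuous⟩ with hf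
  set a : ℤ → ℝ := fun h => ‖fourierCoeff (fun t : UnitAddCircle => ((ψ t : ℝ) : ℂ)) h‖ with ha
  have ha0 : ∀ h, 0 ≤ a h := fun h => norm_nonneg _
  set θ : ℝ := (1 / 2 : ℝ) ^ (2 / 3 : ℝ) with hθ
  have hθ0 : 0 < θ := by positivity
  have hθ3 : θ ^ 3 = 1 / 4 := by
    rw [hθ, ← Real.rpow_natCast, ← Real.rpow_mul (by norm_num)]
    norm_num
  have hθ2 : θ ^ 2 < 4 / 9 := by
    by_contra hcon
    push Not at hcon
    have h1 : (4 / 9 : ℝ) ^ 3 ≤ (θ ^ 2) ^ 3 := pow_le_pow_left₀ (by norm_num) hcon 3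
    have h2 : (θ ^ 2) ^ 3 = (θ ^ 3) ^ 2 := by ring
    rw [h2, hθ3] at h1
    norm_num at h1
  have hθ1 : θ ≤ 1 := by
    by_contra hcon
    push Not at hcon
    nlinarith [mul_pos hθ0 hθ0]
  -- the block estimate
  have hblock : ∀ m : ℕ, ∑ h ∈ B m, a h ^ 2 ≤ C ^ 2 * (θ ^ 2) ^ m := by
    intro m
    set τ : ℝ := (1 / 2 : ℝ) ^ (m + 2) with hτ
    set g : C(UnitAddCircle, ℂ) := ⟨fun t => f (t + (τ : UnitAddCircle)) - f t,
      (f.continuous.comp (continuous_id.add continuous_const)).sub f.continuous⟩ with hg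
    have hτθ : τ ^ (2 / 3 : ℝ) = θ ^ (m + 2) := by
      rw [hτ, hθ, ← Real.rpow_natCast, ← Real.rpow_natCast, ← Real.rpow_mul (by norm_num),
        ← Real.rpow_mul (by norm_num), mul_comm]
    have hgb : ∀ t, ‖g t‖ ≤ C * θ ^ (m + 2) := by
      intro t
      induction t using QuotientAddGroup.induction_on with
      | H x =>
        have h1 : g ((x : ℝ) : UnitAddCircle) =
            (((ψ (((x + τ : ℝ)) : UnitAddCircle) - ψ ((x : ℝ) : UnitAddCircle) : ℝ)) : ℂ) := by
          rw [hg]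
          simp only [ContinuousMap.coe_mk, hf]
          push_cast
          rfl
        have h2 := hC (x + τ) x
        have h3 : |x + τ - x| = τ := by
          rw [add_sub_cancel_left, abs_of_pos (by positivity)]
        rw [h3, hτθ] at h2
        have h4 : ‖g ((x : ℝ) : UnitAddCircle)‖ ≤ C * θ ^ (m + 2) := by
          rw [h1, Complex.norm_real, Real.norm_eq_abs]
          exact h2
        exact h4
    have hpar := parseval_le g _ hgb (B m)
    have hcoef : ∀ h ∈ B m, 2 * a h ^ 2 ≤ ‖fourierCoeff (fun t : UnitAddCircle => g t) h‖ ^ 2 := by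
      intro h hh
      have h1 := (Finset.mem_filter.1 hh).2
      have h2 := fourier_far m h h1.1 h1.2
      have h3 : fourierCoeff (fun t : UnitAddCircle => g t) h =
          (fourier h ((τ : ℝ) : UnitAddCircle) - 1) *
            fourierCoeff (fun t : UnitAddCircle => f t) h := coeff_diff f _ h
      rw [h3, norm_mul, mul_pow]
      exact mul_le_mul_of_nonneg_right h2 (by positivity)
    have h5 : ∑ h ∈ B m, 2 * a h ^ 2 ≤ (C * θ ^ (m + 2)) ^ 2 :=
      (Finset.sum_le_sum hcoef).trans hpar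
    rw [← Finset.mul_sum] at h5
    have h6 : (C * θ ^ (m + 2)) ^ 2 = C ^ 2 * (θ ^ 2) ^ m * (θ ^ 2) ^ 2 := by ring
    rw [h6] at h5
    have h7 : (θ ^ 2) ^ 2 ≤ 1 := by
      have : θ ^ 2 ≤ 1 := by nlinarith
      nlinarith [sq_nonneg θ]
    have h8 : 0 ≤ C ^ 2 * (θ ^ 2) ^ m := by positivity
    have h9 : 0 ≤ ∑ h ∈ B m, a h ^ 2 := Finset.sum_nonneg (fun _ _ => by positivity)
    nlinarith
  -- the sum over a block
  set D : ℕ → ℝ := fun m => C ^ 2 * (9 / 4 * θ ^ 2) ^ m + 5 * (8 / 9 : ℝ) ^ m with hD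
  have hDs : Summable D := by
    apply Summable.add
    · apply Summable.mul_left
      apply summable_geometric_of_lt_one (by positivity)
      linarith
    · apply Summable.mul_left
      exact summable_geometric_of_lt_one (by norm_num) (by norm_num)
  have hD0 : ∀ m, 0 ≤ D m := fun m => by
    rw [hD]; positivity
  have hblock1 : ∀ m : ℕ, ∑ h ∈ B m, a h ≤ D m := by
    intro m
    have h1 : ∀ h ∈ B m, a h ≤ (9 / 4 : ℝ) ^ m * a h ^ 2 + (4 / 9 : ℝ) ^ m := by
      intro h _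
      have hr : (0 : ℝ) < (9 / 4 : ℝ) ^ m := by positivity
      have hr2 : (9 / 4 : ℝ) ^ m * (4 / 9 : ℝ) ^ m = 1 := by
        rw [← mul_pow]; norm_num
      have hr3 : (0 : ℝ) < (4 / 9 : ℝ) ^ m := by positivity
      have key : 0 ≤ (4 / 9 : ℝ) ^ m * ((9 / 4 : ℝ) ^ m * a h - 1 / 2) ^ 2 := by positivity
      have key2 : (4 / 9 : ℝ) ^ m * ((9 / 4 : ℝ) ^ m * a h - 1 / 2) ^ 2 =
          ((9 / 4 : ℝ) ^ m * (4 / 9 : ℝ) ^ m) * ((9 / 4 : ℝ) ^ m * a h ^ 2) -
            ((9 / 4 : ℝ) ^ m * (4 / 9 : ℝ) ^ m) * a h + (4 / 9 : ℝ) ^ m / 4 := by ring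
      rw [key2, hr2] at key
      linarith
    calc ∑ h ∈ B m, a h ≤ ∑ h ∈ B m, ((9 / 4 : ℝ) ^ m * a h ^ 2 + (4 / 9 : ℝ) ^ m) :=
          Finset.sum_le_sum h1
      _ = (9 / 4 : ℝ) ^ m * ∑ h ∈ B m, a h ^ 2 + (B m).card * (4 / 9 : ℝ) ^ m := by
          rw [Finset.sum_add_distrib, ← Finset.mul_sum, Finset.sum_const, nsmul_eq_mul]
      _ ≤ (9 / 4 : ℝ) ^ m * (C ^ 2 * (θ ^ 2) ^ m) + (5 * 2 ^ m) * (4 / 9 : ℝ) ^ m := by
          apply add_le_add
          · exact mul_le_mul_of_nonneg_left (hblock m) (by positivity)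
          · exact mul_le_mul_of_nonneg_right (B_card m) (by positivity)
      _ = D m := by
          rw [hD]
          simp only
          rw [mul_pow, mul_assoc 5, ← mul_pow]
          norm_num
          ring
  apply summable_of_sum_le (c := a 0 + ∑' m, D m) ha0
  intro u
  have hsplit : ∑ h ∈ u, a h ≤ a 0 + ∑ h ∈ u.filter (fun h => h ≠ 0), a h := by
    rw [← Finset.sum_filter_add_sum_filter_not u (fun h => h ≠ 0), add_comm]
    apply add_le_add _ le_rfl
    calc ∑ h ∈ u.filter (fun h => ¬ h ≠ 0), a h ≤ ∑ h ∈ ({0} : Finset ℤ), a h := by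
          apply Finset.sum_le_sum_of_subset_of_nonneg
          · intro x hx
            have := (Finset.mem_filter.1 hx).2
            push Not at this
            rw [this]; simp
          · intro i _ _; exact ha0 i
      _ = a 0 := by simp
  refine hsplit.trans (add_le_add le_rfl ?_)
  set M : ℕ := u.sup Int.natAbs + 1 with hM
  have hmaps : ∀ h ∈ u.filter (fun h => h ≠ 0), Nat.log 2 h.natAbs ∈ Finset.range M := by
    intro h hh
    rw [Finset.mem_range, hM]
    have h1 : h.natAbs ≤ u.sup Int.natAbs := Finset.le_sup (Finset.mem_filter.1 hh).1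
    have h2 : Nat.log 2 h.natAbs ≤ h.natAbs := Nat.log_le_self _ _
    omega
  rw [← Finset.sum_fiberwise_of_maps_to hmaps]
  calc ∑ m ∈ Finset.range M, ∑ h ∈ (u.filter (fun h => h ≠ 0)).filter
          (fun h => Nat.log 2 h.natAbs = m), a h
      ≤ ∑ m ∈ Finset.range M, ∑ h ∈ B m, a h := by
        apply Finset.sum_le_sum
        intro m _
        apply Finset.sum_le_sum_of_subset_of_nonneg
        · intro h hh
          rw [Finset.mem_filter, Finset.mem_filter] at hh
          obtain ⟨⟨_, h0⟩, hl⟩ := hh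
          have hn0 : h.natAbs ≠ 0 := by simpa using h0
          have b1 : 2 ^ m ≤ h.natAbs := by
            rw [← hl]; exact Nat.pow_log_le_self 2 hn0
          have b2 : h.natAbs < 2 ^ (m + 1) := by
            rw [← hl]; exact Nat.lt_pow_succ_log_self (by norm_num) _
          unfold B
          rw [Finset.mem_filter, Finset.mem_Icc]
          refine ⟨?_, b1, b2⟩
          have b3 : ((2 : ℤ) ^ (m + 1)) = ((2 ^ (m + 1) : ℕ) : ℤ) := by push_cast; rfl
          rw [b3]
          omega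
        · intro i _ _; exact ha0 i
    _ ≤ ∑ m ∈ Finset.range M, D m := Finset.sum_le_sum (fun m _ => hblock1 m)
    _ ≤ ∑' m, D m := hDs.sum_le_tsum _ (fun i _ => hD0 i)

end

end Pool.Agent.W332.WA.WB
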